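import Pool.Agent.H19.Ul2

/-! Full degree vectors of pairs in oriented 4-uniform hypergraphs. -/

set_option maxHeartbeats 400000

namespace Pool.Agent.Results.MP_721462_co.Full

open Finset

variable {n : ℕ}

/-- `D` orients `H`: for each edge `E`, `D E` is a bijection from `E` onto the `r` positions. -/
def IsOrientation (r : ℕ) (H : Finset (Finset (Fin n))) (D : Finset (Fin n) → Fin n → Fin r) :
    Prop :=
  ∀ E ∈ H, Set.BijOn (D E) (E : Set (Fin n)) Set.univ

/-- `d_P(A)`: the number of edges containing `A` in which `A` occupies exactly the positions `P`. -/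
def deg {r : ℕ} (H : Finset (Finset (Fin n))) (D : Finset (Fin n) → Fin n → Fin r)
    (A : Finset (Fin n)) (P : Finset (Fin r)) : ℕ :=
  (H.filter fun E => A ⊆ E ∧ A.image (D E) = P).card

/-- `f(D,p,k)`: the number of `p`-sets `A` with `d_P(A) ≥ k` for every `p`-set `P` of positions. -/
def fD {r : ℕ} (H : Finset (Finset (Fin n))) (D : Finset (Fin n) → Fin n → Fin r) (p k : ℕ) : ℕ :=
  ((powersetCard p (univ : Finset (Fin n))).filter fun A =>
    ∀ P ∈ powersetCard p (univ : Finset (Fin r)), k ≤ deg H D A P).card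

/-- `f(H,p,k)`: the minimum of `f(D,p,k)` over the orientations `D` of `H`. -/
noncomputable def f (r : ℕ) (H : Finset (Finset (Fin n))) (p k : ℕ) : ℕ :=
  sInf {m | ∃ D, IsOrientation r H D ∧ fD H D p k = m}

/-- `b(H,p)`: the largest size of a family `B` of `p`-sets with a colouring by at most
`r.choose p` colours under which no edge with all its `p`-subsets in `B` is monochromatic. -/
noncomputable def b (r : ℕ) (H : Finset (Finset (Fin n))) (p : ℕ) : ℕ :=
  sSup {m | ∃ B ⊆ powersetCard p (univ : Finset (Fin n)), B.card = m ∧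
    ∃ col : Finset (Fin n) → Fin (r.choose p), ∀ E ∈ H, powersetCard p E ⊆ B →
      ¬ ∃ κ, ∀ A ∈ powersetCard p E, col A = κ}

lemma exists_orientation (H : Finset (Finset (Fin n))) (hH : ∀ E ∈ H, E.card = 4) :
    ∃ D, IsOrientation 4 H D := by
  classical
  refine ⟨fun E v => if h : E.card = 4 ∧ v ∈ E then equivFinOfCardEq h.1 ⟨v, h.2⟩ else 0, ?_⟩
  intro E hE
  have h4 := hH E hE
  refine ⟨Set.mapsTo_univ _ _, ?_, ?_⟩
  · intro u hu v hv h
    have hu' : u ∈ E := hu
    have hv' : v ∈ E := hv
    simp only [h4, hu', hv', and_self, dite_true] at h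
    simpa using (equivFinOfCardEq h4).injective h
  · intro i _
    refine ⟨((equivFinOfCardEq h4).symm i).1, ((equivFinOfCardEq h4).symm i).2, ?_⟩
    simp [h4]

theorem result : ∃ (n : ℕ) (H : Finset (Finset (Fin n))), (∀ E ∈ H, E.card = 4) ∧
    (n.choose 2 : ℤ) - b 4 H 2 < f 4 H 2 1 := by
  classical
  obtain ⟨n, col, hcol⟩ := Pool.Agent.H19.Ul.core
  let H : Finset (Finset (Fin n)) := (powersetCard 4 univ).filter fun E =>
    ¬ ∃ κ, ∀ A ∈ powersetCard 2 E, col A = κ
  have hH : ∀ E ∈ H, E.card = 4 := fun E hE => (mem_powersetCard.1 (mem_filter.1 hE).1).2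
  refine ⟨n, H, hH, ?_⟩
  have hb : n.choose 2 ≤ b 4 H 2 := by
    refine le_csSup ⟨n.choose 2, ?_⟩ ⟨_, subset_rfl, by simp, col, fun E hE _ => (mem_filter.1 hE).2⟩
    rintro m ⟨B, hB, rfl, -⟩
    simpa using card_le_card hB
  have hf : 0 < f 4 H 2 1 := by
    rw [pos_iff_ne_zero]
    intro h0
    rcases Nat.sInf_eq_zero.1 h0 with h0 | h0
    · obtain ⟨D, hD, h0⟩ := h0
      have hmiss : ∀ A : Finset (Fin n), ∃ P : Pool.Agent.H19.Ul.K, A.card = 2 →
          ∀ E ∈ H, A ⊆ E → A.image (D E) ≠ P.1 := by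
        intro A
        by_cases hA : A.card = 2
        · have := filter_eq_empty_iff.1 (card_eq_zero.1 h0)
            (mem_powersetCard.2 ⟨subset_univ A, hA⟩)
          push Not at this
          obtain ⟨P, hP, hd⟩ := this
          refine ⟨⟨P, (mem_powersetCard.1 hP).2⟩, fun _ E hE hAE h => ?_⟩
          have : deg H D A P = 0 := by omega
          exact filter_eq_empty_iff.1 (card_eq_zero.1 this) hE ⟨hAE, h⟩
        · exact ⟨⟨{0, 1}, by decide⟩, fun h => absurd h hA⟩
      choose c hc using hmiss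
      obtain ⟨a, b, c', d, P, Q, hPQ, n1, n2, n3, n4, n5, n6, hne, k1, k2, k3, k4, k5, k6⟩ := hcol c
      have hE : ({a, b, c', d} : Finset (Fin n)) ∈ H := by
        refine mem_filter.2 ⟨mem_powersetCard.2 ⟨subset_univ _, ?_⟩, ?_⟩
        · rw [card_insert_of_notMem (by simp [n1, n2, n3]), card_insert_of_notMem (by simp [n4, n5]),
            card_pair n6]
        · rintro ⟨κ, hκ⟩
          apply hne
          rw [hκ {a, c'} (mem_powersetCard.2 ⟨by intro z; simp; tauto, card_pair n2⟩),
            hκ {a, b} (mem_powersetCard.2 ⟨by intro z; simp; tauto, card_pair n1⟩)]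
      have inj := (hD _ hE).injOn
      have ne : ∀ u ∈ ({a, b, c', d} : Finset (Fin n)), ∀ v ∈ ({a, b, c', d} : Finset (Fin n)),
          u ≠ v → D {a, b, c', d} u ≠ D {a, b, c', d} v := fun u hu v hv h h' => h (inj hu hv h')
      have bad : ∀ u ∈ ({a, b, c', d} : Finset (Fin n)), ∀ v ∈ ({a, b, c', d} : Finset (Fin n)),
          u ≠ v → ({D {a, b, c', d} u, D {a, b, c', d} v} : Finset (Fin 4)) ≠ (c {u, v}).1 := by
        intro u hu v hv h h'
        refine hc {u, v} (card_pair h) _ hE ?_ ?_
        · exact insert_subset hu (singleton_subset_iff.2 hv)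
        · rw [← h']; simp
      have ma : a ∈ ({a, b, c', d} : Finset (Fin n)) := by simp
      have mb : b ∈ ({a, b, c', d} : Finset (Fin n)) := by simp
      have mc : c' ∈ ({a, b, c', d} : Finset (Fin n)) := by simp
      have md : d ∈ ({a, b, c', d} : Finset (Fin n)) := by simp
      rcases Pool.Agent.H19.Ul.cover P Q _ _ _ _ hPQ (ne a ma b mb n1) (ne a ma c' mc n2)
        (ne a ma d md n3) (ne b mb c' mc n4) (ne b mb d md n5) (ne c' mc d md n6) with
        h | h | h | h | h | h
      · exact bad a ma b mb n1 (by rw [h, k1])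
      · exact bad c' mc d md n6 (by rw [h, k2])
      · exact bad a ma c' mc n2 (by rw [h, k3])
      · exact bad a ma d md n3 (by rw [h, k4])
      · exact bad b mb c' mc n4 (by rw [h, k5])
      · exact bad b mb d md n5 (by rw [h, k6])
    · obtain ⟨D, hD⟩ := exists_orientation H hH
      exact (Set.eq_empty_iff_forall_notMem.1 h0) _ ⟨D, hD, rfl⟩
  omega

end Pool.Agent.Results.MP_721462_co.Full
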